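import Mathlib
import Pool.Agent.Lib.helper22.SHD

set_option autoImplicit false

namespace Pool.Agent.Results.MP_3a5480_gt.Proof

open Set Filter Topology H22S

universe u

theorem sub_conv {X : Type u} [TopologicalSpace X] {F : Set X} (hF : F.Finite) :
    ∀ x : ℕ → X, (∀ V, IsOpen V → F ⊆ V → ∀ᶠ n in atTop, x n ∈ V) →
      ∃ φ : ℕ → ℕ, StrictMono φ ∧ ∃ p, Tendsto (x ∘ φ) atTop (𝓝 p) := by
  induction F, hF using Set.Finite.induction_on with
  | empty =>
    intro x hx
    obtain ⟨n, hn⟩ := (hx ∅ isOpen_empty Subset.rfl).exists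
    exact absurd hn (notMem_empty _)
  | @insert a F _ _ ih =>
    intro x hx
    by_cases h : Tendsto x atTop (𝓝 a)
    · exact ⟨id, strictMono_id, a, h⟩
    · rw [tendsto_nhds] at h
      push Not at h
      obtain ⟨U, hU, haU, hfr⟩ := h
      obtain ⟨ψ, hψ, hψ'⟩ := extraction_of_frequently_atTop
        (show ∃ᶠ n in atTop, x n ∉ U from not_eventually.1 hfr)
      obtain ⟨φ, hφ, p, hp⟩ := ih (x ∘ ψ) fun V hV hFV =>
        (hψ.tendsto_atTop.eventually (hx (U ∪ V) (hU.union hV)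
          (insert_subset (Or.inl haU) (hFV.trans subset_union_right)))).mono
            fun n hn => hn.resolve_left (hψ' n)
      exact ⟨ψ ∘ φ, hψ.comp hφ, p, hp⟩

theorem result (X : Type u) [TopologicalSpace X] [T1Space X] (h : SHD X) : SHD (PR X) := by
  intro U hU
  choose F hF using fun n => (hU n).2
  choose V hV hFV hVU using fun n => (hU n).1 _ (hF n)
  obtain ⟨x, hx, hx'⟩ := h V fun n => ⟨hV n, (F n).2.2.mono (hFV n)⟩
  refine ⟨fun n => ⟨insert (x n) (F n).1, (F n).2.1.insert _, insert_nonempty _ _⟩,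
    fun n => hVU n ⟨subset_insert _ _, insert_subset (hx n) (hFV n)⟩, fun φ hφ G hG => ?_⟩
  obtain ⟨ψ, hψ, p, hp⟩ := sub_conv G.2.1 (x ∘ φ) fun W hW hGW =>
    (PR_tend hG hW hGW).mono fun n hn => hn.2 (mem_insert _ _)
  exact hx' (φ ∘ ψ) (hφ.comp hψ) p hp

end Pool.Agent.Results.MP_3a5480_gt.Proof
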